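import Pool.Agent.H75.Lv.Site3
import Pool.Agent.H12.Inst.EVC2
import Pool.Agent.H11.Lv.RST
import Pool.Agent.H89.Per.Top0

set_option autoImplicit false

/-! MP_2e6055, module INST (helper7): the field `cen`.  If a small box around `v` is visited with
probability at least `s3`, then the sine of the state is bounded below (from BD). -/

namespace Pool.Agent.H7.Inst

open Pool.Agent.H7.UC Pool.Agent.H74.Tri Pool.Agent.H75.Perc Pool.Agent.H75.Lv Pool.Agent.H93.SM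
open Pool.Agent.H12.Inst (evc ask_of_rev Bx_conn dst_ge_box)
open Pool.Agent.H11.Lv (mem_sd mem_unx unx_self sti)
open Pool.Agent.H75.Per (CX I)
open Classical

attribute [-instance] instDecidableEqSum

/-- an asked face of a small box around `z` in the chain of `z` -/
theorem ask_stop {U : Finset Fc} {ω : Fc → Bool} {p : Pos} (hp : IsTip U ω p) {z : Fc} {r : ℤ}
    (hr : 0 ≤ r) (hB : Bx z r ⊆ U) {d : ℝ} (hd : 2 * ((r : ℝ) + 1) < d)
    (h : ∃ i f, f ∈ Bx z r ∧ Ask U ω p i f) :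
    ∃ i f, Ask U ω p i f ∧ z ∉ Rev ω p i ∧ f ∈ unx U ω p i z ∧ dst (unx U ω p i z) z < d ∧
      (∀ i' < i, ∀ f', Ask U ω p i' f' → f' ∈ unx U ω p i' z → ¬ dst (unx U ω p i' z) z < d) := by
  have hz : z ∈ Bx z r := mem_Bx.2 (by simp [hr])
  -- the first visit of the box
  have h0 : ∃ i, ∃ f, f ∈ Bx z r ∧ Ask U ω p i f := h
  obtain ⟨f, hf, hA⟩ := Nat.find_spec h0
  have hmin : ∀ i' < Nat.find h0, ∀ f, f ∈ Bx z r → ¬ Ask U ω p i' f := fun i' hi' f hf' hA' =>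
    Nat.find_min h0 hi' ⟨f, hf', hA'⟩
  set t := Nat.find h0 with ht
  have hnr : ∀ g ∈ Bx z r, g ∉ Rev ω p t := by
    intro g hg hgR
    obtain ⟨k, hk, hk'⟩ := ask_of_rev hp hA.1 (hB hg) hgR
    exact hmin k hk g hg hk'
  have hex : ∃ i, (∃ f, Ask U ω p i f ∧ f ∈ unx U ω p i z) ∧ z ∉ Rev ω p i ∧
      dst (unx U ω p i z) z < d := by
    refine ⟨t, ⟨f, hA, ?_⟩, hnr z hz, ?_⟩
    · refine mem_comp.2 ⟨mem_sd.2 ⟨hB hf, hnr f hf⟩, (Bx_conn z r f hf).mono ?_⟩
      intro g hg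
      exact Finset.mem_coe.2 (mem_sd.2 ⟨hB (by exact_mod_cast hg), hnr g (by exact_mod_cast hg)⟩)
    · have h1 : pl (orb ω p t) ∉ unx U ω p t z := fun h => (mem_unx h).2 ⟨t, le_rfl, Or.inl rfl⟩
      have hadj := adj_hl (orb ω p t)
      rw [hA.2.1, adjF_iff] at hadj
      rw [mem_Bx, abs_le, abs_le] at hf
      have h2 := Pool.Agent.H89.Per.dst_le_of (s := r + 1) h1 (z := z) (by rw [abs_le]; omega)
        (by rw [abs_le]; omega)
      push_cast at h2
      linarith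
  obtain ⟨⟨f', hf1, hf2⟩, hz', hdd⟩ := Nat.find_spec hex
  refine ⟨Nat.find hex, f', hf1, hz', hf2, hdd, ?_⟩
  intro i' hi' f'' hA' hf'' hst
  exact Nat.find_min hex hi' ⟨⟨f'', hA', hf''⟩,
    fun h => hz' (Rev.mono hi'.le h), hst⟩

theorem Pr_sum (E : Finset Fc) (A : Finset Fc → Prop) :
    Pr E A = (∑ w ∈ E.powerset, if A w then (1 : ℝ) else 0) / 2 ^ E.card := by
  rw [Pool.Agent.H75.Perc.Pr_eq, Finset.sum_ite, Finset.sum_const_zero, add_zero,
    Finset.sum_const, nsmul_eq_mul, mul_one]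

/-- visibility and the `z`-chain -/
theorem vis_le {U : Finset Fc} {col : Fc → Bool} {z : Fc} {p : Pos} (hS : St U col)
    (hp : IsTip U col p) {r : ℤ} (hr : 0 ≤ r) (hB : Bx z r ⊆ U) {d : ℝ}
    (hd : 2 * ((r : ℝ) + 1) < d) :
    vis U col (Bx z r) ≤ EV z (fun U' _ _ => dst U' z < d)
      (fun U' _ _ => if dst U' z < d then (1 : ℝ) else 0) U.card U col [] := by
  have hz : z ∈ Bx z r := mem_Bx.2 (by simp [hr])
  have h := evc U col z p hS (hB hz) hp (fun U' _ => dst U' z < d)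
    (fun U' _ => if dst U' z < d then (1 : ℝ) else 0)
    (fun U' _ => by split_ifs <;> norm_num) (fun U' c c' _ => ⟨Iff.rfl, rfl⟩)
    (fun w => if (∃ p i f, IsTip U col p ∧ f ∈ Bx z r ∧ Ask U (mixc U w col) p i f) then 1 else 0)
    (fun w hw => by
      by_cases hR : ∃ p i f, IsTip U col p ∧ f ∈ Bx z r ∧ Ask U (mixc U w col) p i f
      · right
        obtain ⟨p', i, f, hp', hf, hA⟩ := hR
        have hpp : p' = p := Pool.Agent.H98.Tri.tipU U col hS p' p hp' hp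
        subst hpp
        have htip : IsTip U (mixc U w col) p' := by
          refine ⟨hp.1, hp.2.1, hp.2.2.1, ?_, ?_⟩
          · rw [Pool.Agent.H12.Inst.mixc_off hp.2.1]; exact hp.2.2.2.1
          · rw [Pool.Agent.H12.Inst.mixc_off hp.2.2.1]; exact hp.2.2.2.2
        obtain ⟨i, f, h3, h4, h5, h6, h7⟩ := ask_stop htip hr hB hd ⟨i, f, hf, hA⟩
        refine ⟨i, f, h3, h4, h5, h6, h7, ?_⟩
        rw [if_pos h6]
        split_ifs <;> norm_num
      · left
        rw [if_neg hR])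
  rw [← Pr_sum] at h
  exact h

/-- **visible implies central** -/
theorem vis_sn (hBD : BD) {s3 : ℝ} (hs3 : 0 < s3) : ∃ κ : ℝ, 0 < κ ∧ ∃ K : ℝ,
    ∀ (U : Finset Fc) (col : Fc → Bool) (v : Fc) (s r : ℤ), St U col → K ≤ s → 0 ≤ r →
    64 * (r + 1) ≤ s → Bx v s ⊆ U → s3 ≤ vis U col (Bx v r) → κ ≤ sn U col v := by
  obtain ⟨κ, hκ, K, hK⟩ := hBD 2 (by norm_num) (s3 / 2) (by positivity)
  refine ⟨κ, hκ, 2 * K, ?_⟩
  intro U col v s r hS hKs hr hs hB hvis
  by_contra hlt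
  push Not at hlt
  have hv : v ∈ U := hB (mem_Bx.2 (by simp; omega))
  have hd1 := dst_ge_box (s := s) (by omega) hB
  have hBr : Bx v r ⊆ U := (Bx_mono (by omega)).trans hB
  have hsR : (64 : ℝ) * ((r : ℝ) + 1) ≤ s := by exact_mod_cast hs
  have hr0 : (0 : ℝ) ≤ r := by exact_mod_cast hr
  -- there is a tip
  by_cases htip : ∃ p, IsTip U col p
  · obtain ⟨p, hp⟩ := htip
    have h1 := vis_le hS hp hr hBr (d := dst U v / 8) (by linarith)
    have h2 := hK U col v hS hv (by linarith) hlt.le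
    have e : ∀ (U' : Finset Fc) (c' : Fc → Bool), (dst U' v < dst U v / 8 ∨ 2 ≤ sn U' c' v) ↔
        dst U' v < dst U v / 8 := by
      intro U' c'
      constructor
      · rintro (h | h)
        · exact h
        · have := Pool.Agent.H21.SM.sn_le_one U' c' v
          linarith
      · exact Or.inl
    simp only [e] at h2
    have h3 : EV v (fun U' _ _ => dst U' v < dst U v / 8)
      (fun U' _ _ => if dst U' v < dst U v / 8 then (1 : ℝ) else 0) U.card U col [] ≤ s3 / 2 := by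
      convert h2 using 4
    linarith
  · have h0 : vis U col (Bx v r) = 0 := by
      unfold vis
      have : Pr U (fun w => ∃ p i f, IsTip U col p ∧ f ∈ Bx v r ∧ Ask U (mixc U w col) p i f) =
          Pr U (fun _ => False) := by
        apply Pr_congr
        intro w _
        constructor
        · rintro ⟨p, _, _, hp, _⟩
          exact htip ⟨p, hp⟩
        · exact fun h => h.elim
      rw [this]
      unfold Pr
      simp
    linarith

variable {c : Cf}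

/-- the unexplored component, in the two notations -/
theorem unx_eq (ω : Finset c.al) (t : ℕ) (z : Fc) :
    unx (box c.m c.n) (Om ω) p0 t z = comp (Pool.Agent.H74.Tri.un (b1 ω) t) z := by
  unfold unx
  congr 1
  ext f
  rw [mem_sd, mem_un]
  rfl

/-- the potential of the state at the first visit of `S` -/
noncomputable def gvS (S : Finset Fc) (v : Fc) (ω : Finset c.al) : ℝ :=
  gv (unx (box c.m c.n) (Om ω) p0 (fi S ω) v) (Om ω) v

/-- **the field `cen`** -/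
theorem cen_field (hBD : BD) {s3 : ℝ} (hs3 : 0 < s3) : ∃ sa : ℝ, 0 < sa ∧ ∃ a0 : ℕ, ∀ (c : Cf),
    c.Ok → c.s3 = s3 → a0 ≤ c.a → ∀ (v : Fc) (j0 k : ℕ) (ω : Finset c.al), mad v j0 k ω →
    (2 * (c.g.N : ℝ)) ^ ((1 / 4) : ℝ) * sa ≤
      (c.rho (j0 - k) : ℝ) ^ ((1 / 4) : ℝ) * gvS (c.En (j0 - k) (c.sq (j0 - k) v)) v ω := by
  obtain ⟨κ, hκ, K, hK⟩ := vis_sn hBD hs3
  refine ⟨12 ^ (-(1 / 4) : ℝ) * κ ^ ((1 / 3) : ℝ), by positivity, ⌈K⌉.toNat, ?_⟩
  intro c hc hcs ha v j0 k ω hm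
  obtain ⟨hj, hhit, hph, hfree, hAdm⟩ := hm
  set j := j0 - k with hjdef
  set z0 := c.sq j v with hz0
  set t := fi (c.En j z0) ω with ht
  set X : ℤ := c.g.h * c.un j with hX
  have hX6 := hc.hu_pos j
  have hnear := sq_near hc j v
  have hs8 := hc.hs8 j
  rw [← hX] at hX6 hs8
  rw [← hz0] at hnear
  have hEn : c.En j z0 = Bx z0 X := rfl
  -- the state
  set D := comp (Pool.Agent.H74.Tri.un (b1 ω) t) z0 with hD
  have hBz : Bx z0 X ⊆ D := hAdm.1
  have hvz : v ∈ Bx z0 (c.hs j) := hnear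
  have hvX : v ∈ Bx z0 X := Bx_mono (by omega) hvz
  have hvD : v ∈ D := hBz hvX
  have hz0D : z0 ∈ D := hBz (mem_Bx.2 (by simp; omega))
  have hDe : unx (box c.m c.n) (Om ω) p0 t v = D := by
    rw [unx_eq, hD]
    exact comp_eq_of_mem (comp_sub _ _ hz0D) hvD
  have hinit := Pool.Agent.H11.Tri.init c.m c.n (Om ω) hc.m hc.n (ext_bc _)
  have hIns : Ins (box c.m c.n) (Om ω) p0 t := by
    obtain ⟨f, _, hf⟩ := (hit_iff hc).1 hhit
    exact hf.1
  have hvbox := mem_un.1 (comp_sub _ _ hvD)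
  have hStD : St D (Om ω) := by
    rw [← hDe]
    exact sti (box c.m c.n) (Om ω) p0 hinit.1 hinit.2 t hIns v hvbox.1 hvbox.2
  -- `Bx v (7 X / 8)` is in the state
  set s : ℤ := X - c.hs j with hs
  have hBs : Bx v s ⊆ D := by
    refine (Bx_sub hvz (by omega)).trans hBz
  have hr0 : 0 ≤ X / 100 := by omega
  have hv3 : s3 ≤ vis D (Om ω) (Bx v (X / 100)) := by
    have := hAdm.2.2 v (by
      show v ∈ Bx z0 (X / 8)
      have e : X / 8 = c.hs j := by rw [← hs8]; omega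
      rw [e]; exact hvz)
    rw [hcs] at this
    exact this
  have hKs : K ≤ (s : ℝ) := by
    have h1 : (K : ℝ) ≤ ⌈K⌉ := Int.le_ceil K
    have h2 : (⌈K⌉ : ℤ) ≤ c.a := by
      have := Int.self_le_toNat ⌈K⌉
      omega
    have h3 : (c.a : ℤ) ≤ c.un j := by
      have h4 : 1 ≤ c.l := by
        have h3 := hc.l
        have h4 := hc.L
        have h5 := hc.g.N8
        have h6 := hc.g.h64
        have h7 : (0 : ℤ) < 64 * c.L * c.g.N * c.g.h := by positivity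
        omega
      have h5 : 1 ≤ c.l ^ j := Nat.one_le_pow _ _ h4
      unfold Cf.un
      exact_mod_cast Nat.le_mul_of_pos_right _ h5
    have h4 := hc.u_le_hu j
    rw [← hX] at h4
    have h6 : (⌈K⌉ : ℤ) ≤ s := by omega
    exact h1.trans (by exact_mod_cast h6)
  have hsn := hK D (Om ω) v s (X / 100) hStD hKs hr0 (by omega) hBs hv3
  -- the conformal radius
  obtain ⟨_, _, _, hd1, hd2, hd3⟩ := Pool.Agent.H84.SM.ch D v hStD.dom hvD
  have hdst : dst D v ≤ 2 * ((X + c.hs j + 1 : ℤ) : ℝ) := by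
    have h1 : pl (orb (Om ω) p0 t) ∉ D := by
      intro h
      exact (mem_un.1 (comp_sub _ _ h)).2 ⟨t, le_rfl, Or.inl rfl⟩
    have hadj := adj_hl (orb (Om ω) p0 t)
    have hph' : ph (orb (Om ω) p0 t) ∈ Bx z0 X := hph
    rw [adjF_iff] at hadj
    rw [mem_Bx, abs_le, abs_le] at hph' hvz
    exact Pool.Agent.H89.Per.dst_le_of h1 (by rw [abs_le]; omega) (by rw [abs_le]; omega)
  have hcr : crad D v ≤ 12 * (X : ℝ) := by
    have h1 : ((X + c.hs j + 1 : ℤ) : ℝ) * 8 ≤ 12 * X := by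
      have : (X + c.hs j + 1) * 8 ≤ 12 * X := by omega
      exact_mod_cast this
    linarith
  have hX0 : (0 : ℝ) < X := by
    have : (0 : ℤ) < X := by omega
    exact_mod_cast this
  have hc0 : 0 < crad D v := by linarith
  have hN0 : (0 : ℝ) < 2 * c.g.N := by
    have : (0 : ℤ) < 2 * c.g.N := by have := hc.g.N8; omega
    exact_mod_cast this
  have hgv : gvS (c.En j z0) v ω = crad D v ^ (-(1 / 4) : ℝ) * sn D (Om ω) v ^ ((1 / 3) : ℝ) := by
    unfold gvS gv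
    rw [← ht, hDe]
  have hrho : (c.rho j : ℝ) = 2 * c.g.N * X := by
    have := hc.rho_eq j
    rw [← hX] at this
    exact_mod_cast this
  rw [hgv, hrho, Real.mul_rpow hN0.le hX0.le]
  have h1 : (12 * (X : ℝ)) ^ (-(1 / 4) : ℝ) ≤ crad D v ^ (-(1 / 4) : ℝ) :=
    Real.rpow_le_rpow_of_nonpos hc0 hcr (by norm_num)
  have h2 : κ ^ ((1 / 3) : ℝ) ≤ sn D (Om ω) v ^ ((1 / 3) : ℝ) :=
    Real.rpow_le_rpow hκ.le hsn (by norm_num)
  have h3 : (X : ℝ) ^ ((1 / 4) : ℝ) * (12 * (X : ℝ)) ^ (-(1 / 4) : ℝ) = 12 ^ (-(1 / 4) : ℝ) := by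
    rw [Real.mul_rpow (by norm_num) hX0.le]
    have : (X : ℝ) ^ ((1 / 4) : ℝ) * (X : ℝ) ^ (-(1 / 4) : ℝ) = 1 := by
      rw [← Real.rpow_add hX0]; norm_num
    linear_combination (12 ^ (-(1 / 4) : ℝ) : ℝ) * this
  have hN1 : 0 < (2 * (c.g.N : ℝ)) ^ ((1 / 4) : ℝ) := Real.rpow_pos_of_pos hN0 _
  have hX1 : 0 < (X : ℝ) ^ ((1 / 4) : ℝ) := Real.rpow_pos_of_pos hX0 _
  calc (2 * (c.g.N : ℝ)) ^ ((1 / 4) : ℝ) * (12 ^ (-(1 / 4) : ℝ) * κ ^ ((1 / 3) : ℝ))
      = (2 * (c.g.N : ℝ)) ^ ((1 / 4) : ℝ) * (X : ℝ) ^ ((1 / 4) : ℝ) *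
        ((12 * (X : ℝ)) ^ (-(1 / 4) : ℝ) * κ ^ ((1 / 3) : ℝ)) := by rw [← h3]; ring
    _ ≤ _ := by
        apply mul_le_mul_of_nonneg_left _ (by positivity)
        exact mul_le_mul h1 h2 (by positivity) (by positivity)

end Pool.Agent.H7.Inst
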