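import Pool.Agent.H74.Lv.Pot
import Pool.Agent.H98.Inst.Push
import Pool.Agent.H29.Lv.Cong
import Pool.Agent.H7.Inst.Cen

set_option autoImplicit false

/-! MP_2e6055, module INST (helper7): the field `f5` (an attempt is made with positive probability from
every central state), and `cen` in the notation of helper74. -/

namespace Pool.Agent.H7.Inst

open Pool.Agent.H7.UC Pool.Agent.H74.Tri Pool.Agent.H75.Perc Pool.Agent.H75.Lv Pool.Agent.H93.SM
open Pool.Agent.H11.Lv (mem_sd mem_unx unx_self sti rst)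
open Pool.Agent.H75.Per (CX CX_mono CX_sub CX_smul I I_nonneg I_true I_false I_le_one)
open Pool.Agent.H74.Lv (GGA gq)
open Classical

attribute [-instance] instDecidableEqSum

/-- **the field `cen`** in the notation of helper74 -/
theorem cen_GGA (hBD : BD) {s3 : ℝ} (hs3 : 0 < s3) : ∃ sa : ℝ, 0 < sa ∧ ∃ a0 : ℕ, ∀ (c : Cf),
    c.Ok → c.s3 = s3 → a0 ≤ c.a → ∀ (v : Fc) (j0 k : ℕ) (ω : Finset c.al), mad v j0 k ω →
    (2 * (c.g.N : ℝ)) ^ ((1 / 4) : ℝ) * sa ≤ GGA v j0 k ω := by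
  obtain ⟨sa, h1, a0, h2⟩ := cen_field hBD hs3
  refine ⟨sa, h1, a0, fun c hc hcs ha v j0 k ω hm => ?_⟩
  have h3 := h2 c hc hcs ha v j0 k ω hm
  unfold GGA
  rw [if_pos hm]
  exact h3

variable {c : Cf}

/-- the bit of a face of the box -/
noncomputable def fb (x0 : c.V) (f : Fc) : c.al :=
  if h : ∃ x : c.V, em x = f then Sum.inl h.choose else Sum.inl x0

theorem fb_em (x0 x : c.V) : fb x0 (em x) = Sum.inl x := by
  unfold fb
  have h : ∃ y : c.V, em y = em x := ⟨x, rfl⟩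
  rw [dif_pos h]
  congr 1
  exact em_inj h.choose_spec

theorem sta_of_box (hc : c.Ok) (ω : Finset c.al) : St (box c.m c.n) (Om ω) ∧
    IsTip (box c.m c.n) (Om ω) p0 :=
  Pool.Agent.H11.Tri.init c.m c.n (Om ω) hc.m hc.n (ext_bc _)

theorem sub_box {j : ℕ} {v : Fc} (hc : c.Ok) (h : c.use j v) : Bx v (c.rho j) ⊆ box c.m c.n := by
  refine (Bx_sub (Bx_symm (Bx_symm (sq_near hc j v))) ?_).trans h.2.2
  have h1 := hc.hs8 j
  have h2 := hc.hu_le_rho j
  have h3 := hc.rho_pos j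
  have h4 := hc.hu_pos j
  omega

section

variable {v : Fc} {j0 k : ℕ} {ω ω' : Finset c.al}

/-- **the event of F5 in the component of `v` at `σ_k` gives the attempt** -/
theorem f5_event (hc : c.Ok) (hA : ADMC) (hj : 1 ≤ j0 - k) (huse : c.use (j0 - k) v)
    (hal : alv v j0 k ω)
    (hag : Agr (Om ω) (Om ω') (fi (Bx v (c.rho (j0 - k))) ω)) (x0 : c.V)
    (hev : ∃ i, First (unx (box c.m c.n) (Om ω) p0 (fi (Bx v (c.rho (j0 - k))) ω) v)
      (mixc (unx (box c.m c.n) (Om ω) p0 (fi (Bx v (c.rho (j0 - k))) ω) v)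
        ((unx (box c.m c.n) (Om ω) p0 (fi (Bx v (c.rho (j0 - k))) ω) v).filter
          (fun f => fb x0 f ∈ ω')) (Om ω))
      (orb (Om ω) p0 (fi (Bx v (c.rho (j0 - k))) ω)) (c.En (j0 - k) (c.sq (j0 - k) v)) i ∧
      Adm c.g c.s3 (c.un (j0 - k))
        (unx (unx (box c.m c.n) (Om ω) p0 (fi (Bx v (c.rho (j0 - k))) ω) v)
          (mixc (unx (box c.m c.n) (Om ω) p0 (fi (Bx v (c.rho (j0 - k))) ω) v)
            ((unx (box c.m c.n) (Om ω) p0 (fi (Bx v (c.rho (j0 - k))) ω) v).filter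
              (fun f => fb x0 f ∈ ω')) (Om ω))
          (orb (Om ω) p0 (fi (Bx v (c.rho (j0 - k))) ω)) i (c.sq (j0 - k) v))
        (mixc (unx (box c.m c.n) (Om ω) p0 (fi (Bx v (c.rho (j0 - k))) ω) v)
          ((unx (box c.m c.n) (Om ω) p0 (fi (Bx v (c.rho (j0 - k))) ω) v).filter
            (fun f => fb x0 f ∈ ω')) (Om ω)) (c.sq (j0 - k) v)) :
    mad v j0 k ω' := by
  set j := j0 - k with hjdef
  set S := Bx v (c.rho j) with hS
  set t0 := fi S ω with ht0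
  set W := box c.m c.n with hW
  set D := unx W (Om ω) p0 t0 v with hD
  set q := orb (Om ω) p0 t0 with hq
  set w := D.filter (fun f => fb x0 f ∈ ω') with hw
  set M := mixc D w (Om ω) with hM
  set z0 := c.sq j v with hz0
  have hvS : v ∈ S := mem_Bx.2 (by
    have := hc.rho_pos j
    simp; omega)
  have hSW : S ⊆ W := sub_box hc huse
  have hhit : hit S ω := hal
  obtain ⟨f0, hf0, hask0⟩ := (hit_iff hc).1 hhit
  have hDe : D = comp (Pool.Agent.H74.Tri.un (b1 ω) t0) v := unx_eq ω t0 v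
  have hSD : S ⊆ D := by
    rw [hDe]
    exact Pool.Agent.H74.Lv.fresh_comp hc hhit hSW (Pool.Agent.H74.Lv.cnn_Bx _ _) hvS le_rfl
  have hEnS : c.En j z0 ⊆ S := En_sub hc j v
  have hDW : ∀ f ∈ D, f ∈ W := fun f hf => (mem_unx hf).1
  -- the colours
  have hMeq : ∀ f, f ∈ D ∨ tch ↑D f → M f = Om ω' f := by
    intro f hf
    by_cases hfD : f ∈ D
    · obtain ⟨x, rfl⟩ := exists_em (hDW f hfD)
      have h1 : M (em x) = decide (em x ∈ w) := by
        rw [hM]; unfold mixc; rw [if_pos hfD]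
      have h2 : em x ∈ w ↔ Sum.inl x ∈ ω' := by
        rw [hw, Finset.mem_filter, fb_em]
        exact ⟨fun h => h.2, fun h => ⟨hfD, h⟩⟩
      rw [h1, Om_em]
      unfold b1
      exact decide_eq_decide.2 h2
    · have ht : tch ↑D f := hf.resolve_left hfD
      have h1 : M f = Om ω f := by
        rw [hM]; unfold mixc; rw [if_neg hfD]
      rw [h1]
      refine (Om_agr_off hag ?_).symm
      rw [hDe] at hfD ht
      exact tch_comp hfD ht
  have hMeq' : ∀ f, f ∈ D ∨ tch ↑D f → Om ω' f = M f := fun f hf => (hMeq f hf).symm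
  -- the exploration of `ω'`
  have hqe : orb (Om ω') p0 t0 = q := hag.orb
  have hDe' : unx W (Om ω') p0 t0 v = D := by
    rw [hDe, hW, unx_eq ω' t0 v, un_agr hag]
  have hask0' : Ask W (Om ω') p0 t0 f0 := (hag.Ask W f0).2 hask0
  obtain ⟨hbS', hbT'⟩ := sta_of_box hc ω'
  have hvR' : v ∉ Rev (Om ω') p0 t0 := by
    rw [hag.Rev]
    exact (mem_unx (hSD hvS)).2
  obtain ⟨hStD, hTD, r2, r3, r4⟩ := rst W (Om ω') p0 hbS' hbT' t0 f0 v hask0' (hSW hvS) hvR'
    (by rw [hDe']; exact hSD hf0)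
  rw [hDe'] at hStD
  rw [hDe', hqe] at hTD r2 r3 r4
  have hTM : IsTip D M q := Pool.Agent.H29.Lv.IsTip.congr (fun f h1 _ => hMeq' f (Or.inr h1)) hTD
  -- the first visit
  obtain ⟨i, ⟨⟨f, hfE, hAM⟩, hfirst⟩, hAdm⟩ := hev
  have hAD := Pool.Agent.H29.Lv.Ask.congr hTM hMeq hAM
  have hAW : asks ω' (t0 + i) f := r2 i f hAD
  have hno : ∀ s < t0 + i, ∀ g ∈ c.En j z0, ¬ asks ω' s g := by
    intro s hs g hg hgA
    rcases Nat.lt_or_ge s t0 with h1 | h1
    · rw [(hag.mono h1.le).asks] at hgA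
      exact (before_fi h1).2 g (hEnS hg) hgA
    · obtain ⟨i', rfl⟩ : ∃ i', s = t0 + i' := ⟨s - t0, by omega⟩
      have h2 := r3 i' g i f hgA (by omega) hAW (hSD (hEnS hfE))
      exact hfirst i' (by omega) g hg (Pool.Agent.H29.Lv.Ask.congr hTD hMeq' h2)
  have hfi : fi (c.En j z0) ω' = t0 + i := fi_eq ⟨f, hfE, hAW⟩ hno
  have hz0E : z0 ∈ c.En j z0 := mem_Bx.2 (by
    have := hc.hu_pos j
    simp; omega)
  have hnr : ∀ g ∈ c.En j z0, g ∉ Rev (Om ω') p0 (t0 + i) := by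
    intro g hg hr
    obtain ⟨s, hs1, hs2⟩ := Pool.Agent.H89.Per.asked_of_rev hc (hSW (hEnS hg)) hr
    exact hno s hs1 g hg hs2
  refine ⟨hj, ⟨t0 + i, f, hfE, hAW⟩, ?_⟩
  show c.Launch (b1 ω') (fi (c.En j z0) ω') j z0
  rw [hfi]
  refine ⟨?_, hnr, ?_⟩
  · show ph (orb (Om ω') p0 (t0 + i)) ∈ _
    rw [hAW.2.1]; exact hfE
  · have e1 : comp (Pool.Agent.H74.Tri.un (b1 ω') (t0 + i)) z0 = unx D M q i z0 := by
      rw [← unx_eq, r4 i z0 hAD.1 (hSD (hEnS hz0E)) (hnr z0 hz0E)]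
      have e2 : D \ expl D (Om ω') q i = D \ expl D M q i := by
        ext g
        rw [mem_sd, mem_sd]
        have e3 : Rev (Om ω') q i = Rev M q i := by
          ext a
          constructor
          · rintro ⟨i', hi', ha⟩
            refine ⟨i', hi', ?_⟩
            rw [(Pool.Agent.H29.Lv.cong D (Om ω') M q hTD hMeq' i' (hAD.1.mono hi')).2]
            exact ha
          · rintro ⟨i', hi', ha⟩
            refine ⟨i', hi', ?_⟩
            rw [(Pool.Agent.H29.Lv.cong D M (Om ω') q hTM hMeq i' (hAM.1.mono hi')).2]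
            exact ha
        rw [e3]
      unfold unx
      rw [e2]
    show Adm c.g c.s3 (c.un j) (comp (Pool.Agent.H74.Tri.un (b1 ω') (t0 + i)) z0) (Om ω') z0
    rw [e1]
    refine (hA _ _ _ _ _ _ _ ?_).1 hAdm
    rintro a ⟨b, hb, hab⟩ _
    apply hMeq
    right
    exact ⟨b, by exact_mod_cast (mem_unx (by exact_mod_cast hb)).1, hab⟩

end

/-- **an attempt is made with positive probability from every central state** -/
theorem f5_made (hF5 : F5) : ∃ s3 : ℝ, 0 < s3 ∧ ∃ N0 : ℤ, ∀ N : ℤ, N0 ≤ N → ∃ h0 : ℤ, ∀ h : ℤ,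
    h0 ≤ h → 8 ∣ h → ∃ g : Gm, g.N = N ∧ g.h = h ∧ g.Ok ∧ ∀ s0 : ℝ, 0 < s0 → ∃ pK : ℝ, 0 < pK ∧
    pK ≤ 1 ∧ ∃ a0 : ℕ, ∀ (c : Cf), c.Ok → ADMC → c.g = g → c.s3 = s3 → a0 ≤ c.a →
    ∀ (v : Fc) (j0 k : ℕ), c.use j0 v → k < j0 → ∀ ω : Finset c.al, alv v j0 k ω →
    s0 ≤ Pool.Agent.H74.Lv.GG v j0 k ω → pK ≤ CX Finset.univ (Rg (Bx v (c.rho (j0 - k))) ω) ω
      (fun ω' => I (mad v j0 k ω')) := by
  obtain ⟨s3, hs3, N0, H⟩ := hF5
  refine ⟨s3, hs3, N0, fun N hN => ?_⟩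
  obtain ⟨h0, H⟩ := H N hN
  refine ⟨h0, fun h hh h8 => ?_⟩
  obtain ⟨g, hgN, hgh, hgOk, H⟩ := H h hh h8
  refine ⟨g, hgN, hgh, hgOk, fun s0 hs0 => ?_⟩
  obtain ⟨pK, hpK, u0, H⟩ := H s0 hs0
  refine ⟨min pK 1, lt_min hpK one_pos, min_le_right _ _, u0, ?_⟩
  intro c hc hA hcg hcs ha v j0 k huse0 hk ω hal hG
  refine (min_le_left _ _).trans ?_
  set j := j0 - k with hjdef
  have hj1 : 1 ≤ j := by omega
  have huse : c.use j v := Pool.Agent.H89.Per.use_mono hc huse0 hj1 (by omega)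
  set S := Bx v (c.rho j) with hS
  set t0 := fi S ω with ht0
  set W := box c.m c.n with hW
  set D := unx W (Om ω) p0 t0 v with hD
  set q := orb (Om ω) p0 t0 with hq
  have hvS : v ∈ S := mem_Bx.2 (by
    have := hc.rho_pos j
    simp; omega)
  have hSW : S ⊆ W := sub_box hc huse
  have hhit : hit S ω := hal
  obtain ⟨f0, hf0, hask0⟩ := (hit_iff hc).1 hhit
  have hDe : D = comp (Pool.Agent.H74.Tri.un (b1 ω) t0) v := unx_eq ω t0 v
  have hSD : S ⊆ D := by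
    rw [hDe]
    exact Pool.Agent.H74.Lv.fresh_comp hc hhit hSW (Pool.Agent.H74.Lv.cnn_Bx _ _) hvS le_rfl
  obtain ⟨hbS, hbT⟩ := sta_of_box hc ω
  obtain ⟨hStD, hTD, _, _, _⟩ := rst W (Om ω) p0 hbS hbT t0 f0 v hask0 (hSW hvS)
    (mem_unx (hSD hvS)).2 (hSD hf0)
  obtain ⟨x0, hx0⟩ : ∃ x0 : c.V, em x0 = v := exists_em (hSW hvS)
  have hu0 : u0 ≤ c.un j := by
    have h4 : 1 ≤ c.l := by
      have h3 := hc.l
      have h4 := hc.L
      have h5 := hc.g.N8
      have h6 := hc.g.h64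
      have h7 : (0 : ℤ) < 64 * c.L * c.g.N * c.g.h := by positivity
      omega
    have h5 : 1 ≤ c.l ^ j := Nat.one_le_pow _ _ h4
    unfold Cf.un
    exact ha.trans (Nat.le_mul_of_pos_right _ h5)
  have hrho : 2 * N * h * (c.un j : ℤ) = c.rho j := by
    unfold Cf.rho; rw [hcg, hgN, hgh]
  have hen : h * (c.un j : ℤ) = c.g.h * c.un j := by rw [hcg, hgh]
  have hmain := H (c.un j) hu0 D (Om ω) v (c.sq j v) q hStD hTD
    (by rw [hrho]; rw [hq, hask0.2.1]; exact hf0)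
    (by rw [hrho]; exact hSD)
    (by
      rw [hen]
      have e : c.g.h * (c.un j : ℤ) / 8 = c.hs j := rfl
      rw [e]
      exact sq_near hc j v)
    (by
      rw [hrho]
      unfold Pool.Agent.H74.Lv.GG at hG
      rw [if_pos hal] at hG
      exact hG)
  rw [hen] at hmain
  rw [← hcg, ← hcs] at hmain
  set P : Finset Fc → Prop := fun w => ∃ i, First D (mixc D w (Om ω)) q
    (Bx (c.sq j v) (c.g.h * (c.un j : ℤ))) i ∧
    Adm c.g c.s3 (c.un j) (unx D (mixc D w (Om ω)) q i (c.sq j v)) (mixc D w (Om ω)) (c.sq j v)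
    with hP
  have hpush := Pool.Agent.H98.Inst.CX_push (E := (Finset.univ : Finset c.al)) (S := Rg S ω)
    (ω₀ := ω) (Finset.subset_univ _) D (fb x0)
    (by
      intro a ha b hb hab
      obtain ⟨x, rfl⟩ := exists_em ((mem_unx ha).1)
      obtain ⟨y, rfl⟩ := exists_em ((mem_unx hb).1)
      rw [fb_em, fb_em] at hab
      rw [Sum.inl.inj hab])
    (fun _ _ => Finset.mem_univ _)
    (by
      intro a ha
      obtain ⟨x, rfl⟩ := exists_em ((mem_unx ha).1)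
      rw [fb_em, mem_Rg]
      exact (mem_unx ha).2)
    (fun w => if P w then (1 : ℝ) else 0)
  rw [← Pr_sum] at hpush
  refine hmain.trans (le_trans (le_of_eq hpush.symm) ?_)
  apply CX_mono
  intro ω' _ hag'
  by_cases hPw : P (D.filter (fun f => fb x0 f ∈ ω'))
  · rw [if_pos hPw]
    have hm : mad v j0 k ω' := f5_event hc hA hj1 huse hal (agr_Rg hag') x0 hPw
    rw [I_true hm]
  · rw [if_neg hPw]
    exact I_nonneg _

/-- combination with `cen` and `lrA` -/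
theorem f5_comb {α : Type*} {E S ω₀ : Finset α} {M L : Finset α → Prop} {X : Finset α → ℝ}
    {p s e : ℝ} (hs : 0 ≤ s) (hp : p ≤ CX E S ω₀ (fun ω => I (M ω)))
    (he : CX E S ω₀ (fun ω => I (M ω ∧ ¬ L ω)) ≤ e) (hX : ∀ ω ⊆ E, M ω → s ≤ X ω) :
    s * (p - e) ≤ CX E S ω₀ (fun ω => I (M ω ∧ L ω) * X ω) := by
  have h1 : CX E S ω₀ (fun ω => s * (I (M ω) - I (M ω ∧ ¬ L ω))) ≤
      CX E S ω₀ (fun ω => I (M ω ∧ L ω) * X ω) := by
    apply CX_mono
    intro ω hω _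
    by_cases hM : M ω
    · by_cases hL : L ω
      · rw [I_true hM, I_false (p := M ω ∧ ¬ L ω) (fun h => h.2 hL), I_true (p := M ω ∧ L ω) ⟨hM, hL⟩]
        have := hX ω hω hM
        linarith
      · rw [I_true hM, I_true (p := M ω ∧ ¬ L ω) ⟨hM, hL⟩, I_false (p := M ω ∧ L ω) (fun h => hL h.2)]
        linarith
    · rw [I_false hM, I_false (p := M ω ∧ ¬ L ω) (fun h => hM h.1),
        I_false (p := M ω ∧ L ω) (fun h => hM h.1)]
      linarith
  rw [CX_smul, CX_sub] at h1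
  refine le_trans (mul_le_mul_of_nonneg_left ?_ hs) h1
  linarith

end Pool.Agent.H7.Inst
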